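import Pool.Agent.H63.DZ.PairFin

/-!
# The relations `γ' = lam γ + α` between ordinates of zeros, with a factor `lam ≠ 1`

Let `ψ₁`, `ψ₂` be primitive Dirichlet characters, `lam ≥ 1` and `α₁, α₂ ≥ 0` real; if `lam = 1` let
`α₁ ≠ α₂` or `ψ₁ ≠ ψ₂`. For `χ` primitive modulo `q` (`q` prime to the two conductors) let
`F₁ (s) = L (s + iα₁, χ ψ₁)` and `F₂ (s) = L (1/2 + lam (s - 1/2) + iα₂, χ ψ₂)`. The common zeros of
`F₁` and `F₂` on the critical line are the solutions of `γ₂ = lam γ₁ + (α₂ - lam α₁)` in ordinates `γ₁`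
of critical zeros of `L (s, χ ψ₁)` and `γ₂` of critical zeros of `L (s, χ ψ₂)`. The two L-functions may
be equal: for `ψ₁ = ψ₂`, `α₁ = α₂ = 0`, `lam = p / m` this is the rational relation `p γ₁ = m γ₂`
between two zeros of one L-function.

Unconditionally, on average over `q` and `χ`, with `h = 2 / (1 + lam)`: the proportion
`(1 - cot h) / h - ε` of the zeros of `F₁` are not zeros of `F₂` (it is positive for
`lam < 8 / π - 1 = 1.546…`; for instance `0.30` for `lam = 1.1`, `0.17` for `lam = 1.3`), and the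
proportion `(1 - cot h) / h - 0.1119… - ε` of them are moreover simple and on the critical line (positive
for `lam < 1.39`); counting the zeros of both functions, the number of the ones which are simple, on
the line and unrelated is at least `((1 + lam) (2 - h - cot h) - ε)` times the number of the zeros of
`F₁`. There are `lam (1 + o(1))` times as many zeros of `F₂` as of `F₁`.
-/

namespace Pool.Agent.Results.MP_0f5a55_nt.AffineRelation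

open Pool.Agent.H63.DZS

/-- **The relation `γ₂ = lam γ₁ + α` on average over `χ`.** -/
theorem result (f₁ f₂ : ℕ) [NeZero f₁] [NeZero f₂] (ψ₁ : DirichletCharacter ℂ f₁)
    (ψ₂ : DirichletCharacter ℂ f₂) (h₁ : ψ₁.IsPrimitive) (h₂ : ψ₂.IsPrimitive)
    (lam α₁ α₂ : ℝ) (hlam : 1 ≤ lam) (hα₁ : 0 ≤ α₁) (hα₂ : 0 ≤ α₂)
    (hne : lam ≠ 1 ∨ α₁ ≠ α₂ ∨
      ∃ n : ℕ, Nat.Coprime n (f₁ * f₂) ∧ ψ₁ (n : ZMod f₁) ≠ ψ₂ (n : ZMod f₂))
    (ε : ℝ) (hε : 0 < ε) :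
    ∃ K η X₀ : ℝ, 1 ≤ K ∧ 0 < η ∧ 1 ≤ X₀ ∧
    ∀ (X Y : ℕ) (T : ℝ), X₀ ≤ X → K * X ≤ Y → (Y : ℝ) ≤ (X : ℝ) ^ (1 + η) →
      (Real.log X) ^ 2 ≤ T → T ≤ (X : ℝ) ^ η →
      0 < fam (f₁ * f₂) X Y (fun q χ => N (F ψ₁ 1 α₁ q χ) T) ∧
      (∀ q : ℕ, X < q → q ≤ Y → Nat.Coprime q (f₁ * f₂) → ∀ χ ∈ prim q,
        (zeros (F ψ₁ 1 α₁ q χ) T).Finite ∧ (zeros (F ψ₂ lam α₂ q χ) T).Finite ∧
        |(N (F ψ₂ lam α₂ q χ) T : ℝ) - lam * N (F ψ₁ 1 α₁ q χ) T| ≤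
          ε * N (F ψ₁ 1 α₁ q χ) T) ∧
      ((1 + lam) / 2 * (1 - Real.cot (2 / (1 + lam))) - ε) *
          fam (f₁ * f₂) X Y (fun q χ => N (F ψ₁ 1 α₁ q χ) T) ≤
        fam (f₁ * f₂) X Y (fun q χ => free (F ψ₁ 1 α₁ q χ) (F ψ₂ lam α₂ q χ) T) ∧
      ((1 + lam) * (2 - 2 / (1 + lam) - Real.cot (2 / (1 + lam))) - ε) *
          fam (f₁ * f₂) X Y (fun q χ => N (F ψ₁ 1 α₁ q χ) T) ≤
        fam (f₁ * f₂) X Y (fun q χ => (only (F ψ₁ 1 α₁ q χ) (F ψ₂ lam α₂ q χ) T).ncard +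
          (only (F ψ₂ lam α₂ q χ) (F ψ₁ 1 α₁ q χ) T).ncard) ∧
      ((1 + lam) / 2 * (1 - Real.cot (2 / (1 + lam))) -
          Real.cot (Real.sqrt 2) / Real.sqrt 2 - ε) *
          fam (f₁ * f₂) X Y (fun q χ => N (F ψ₁ 1 α₁ q χ) T) ≤
        fam (f₁ * f₂) X Y (fun q χ => (only (F ψ₁ 1 α₁ q χ) (F ψ₂ lam α₂ q χ) T).ncard) :=
  Pool.Agent.H63.DZ.pair_fin f₁ f₂ ψ₁ ψ₂ h₁ h₂ lam α₁ α₂ hlam hα₁ hα₂ hne ε hε

end Pool.Agent.Results.MP_0f5a55_nt.AffineRelation
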