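import Pool.Agent.H63.DZ.Many

/-!
# The zeros of `k` L-functions, dilated by arbitrary factors: few coincidences

Let `F_i (s) = L (1/2 + lam_i (s - 1/2) + iα_i, χ ψ_i)`, `i < k`, with `lam_i ≥ 1`, `α_i ≥ 0` and the
triples `(lam_i, α_i, ψ_i)` pairwise different; for instance `ψ_i = 1`, `α_i = 0` and different
`lam_i`: then the critical zeros of `F_i` are the numbers `γ / lam_i`, `γ` the ordinates of the zeros of
one L-function `L (s, χ)`, and linear independence over the rational numbers says that, for rational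
`lam_i`, these `k` sets are disjoint. On average over the primitive characters `χ` modulo `q` and over
`q`: if `S` is the total number of the zeros of the `k` functions with `T < Im s ≤ 2 T`, then the `k` sets
together have at least `((2 r + 1 - c) / (r (r + 1)) - ε) S` different points, for every `r ≥ 1`, with
`D = ∑ lam_i` and `c = k / D + sqrt (k / 2) cot (sqrt (2 k) / D)`. In terms of the number
`n = T log q / 2π` of the zeros of one L-function, `S = D n (1 + o (1))`: two functions with factors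
`1` and `5/4` have at least `1.46 n` different zeros, `1`, `4/3`, `3/2` at least `1.64 n`, the ten factors
`1, 1.1, …, 1.9` at least `1.88 n`, and the bound tends to `2 n` if there are many factors in
`[1, 2)`.
-/

namespace Pool.Agent.Results.MP_0f5a55_nt.DilatedZeroSets

open Pool.Agent.H63.DZS

/-- **The number of the distinct zeros of `k` dilated L-functions, on average over `χ`.** -/
theorem result (k : ℕ) (hk : 1 ≤ k) (f : ℕ → ℕ) [∀ i, NeZero (f i)]
    (ψ : ∀ i, DirichletCharacter ℂ (f i)) (lam α : ℕ → ℝ) (hψ : ∀ i, (ψ i).IsPrimitive)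
    (hlam : ∀ i, 1 ≤ lam i) (hα : ∀ i, 0 ≤ α i)
    (hne : ∀ i j : ℕ, i < j → j < k → lam i ≠ lam j ∨ α i ≠ α j ∨
      ∃ n : ℕ, Nat.Coprime n (f i * f j) ∧ ψ i (n : ZMod (f i)) ≠ ψ j (n : ZMod (f j)))
    (r : ℕ) (hr : 1 ≤ r) (ε : ℝ) (hε : 0 < ε) :
    ∃ K η X₀ : ℝ, 1 ≤ K ∧ 0 < η ∧ 1 ≤ X₀ ∧
    ∀ (X Y : ℕ) (T : ℝ), X₀ ≤ X → K * X ≤ Y → (Y : ℝ) ≤ (X : ℝ) ^ (1 + η) →
      (Real.log X) ^ 2 ≤ T → T ≤ (X : ℝ) ^ η →
      0 < fam (∏ i ∈ Finset.range k, f i) X Y
          (fun q χ => ∑ i ∈ Finset.range k, N (F (ψ i) (lam i) (α i) q χ) T) ∧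
      (∀ q : ℕ, X < q → q ≤ Y → Nat.Coprime q (∏ i ∈ Finset.range k, f i) → ∀ χ ∈ prim q,
        ∀ i < k, (zeros (F (ψ i) (lam i) (α i) q χ) T).Finite ∧
          (1 - ε) * (lam i * T / (2 * Real.pi) * Real.log q) ≤
            N (F (ψ i) (lam i) (α i) q χ) T ∧
          N (F (ψ i) (lam i) (α i) q χ) T ≤
            (1 + ε) * (lam i * T / (2 * Real.pi) * Real.log q)) ∧
      ((2 * r + 1 - (k / (∑ i ∈ Finset.range k, lam i) +
            Real.sqrt (k / 2) * Real.cot (Real.sqrt (2 * k) / (∑ i ∈ Finset.range k, lam i)))) /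
              (r * (r + 1)) - ε) *
          fam (∏ i ∈ Finset.range k, f i) X Y
            (fun q χ => ∑ i ∈ Finset.range k, N (F (ψ i) (lam i) (α i) q χ) T) ≤
        fam (∏ i ∈ Finset.range k, f i) X Y
          (fun q χ => (⋃ i ∈ Finset.range k, zeros (F (ψ i) (lam i) (α i) q χ) T).ncard) :=
  Pool.Agent.H63.DZ.many_fin k hk f ψ lam α hψ hlam hα hne r hr ε hε

end Pool.Agent.Results.MP_0f5a55_nt.DilatedZeroSets
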